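import Mathlib

/-!
Tournaments, decycling matrices over the field with two elements, Gram matrices.
-/

set_option autoImplicit false

open Matrix

namespace Pool.Agent.H535Z.Dijoin

abbrev F2 := ZMod 2

lemma F2_cases (a : F2) : a = 0 ∨ a = 1 := by
  revert a; decide

lemma F2_add_self (a : F2) : a + a = 0 := by
  revert a; decide

lemma F2_mul_self (a : F2) : a * a = a := by
  revert a; decide

/-- `T` is a tournament. -/
def IsT {V : Type} (T : V → V → Prop) : Prop :=
  (∀ u, ¬ T u u) ∧ ∀ u v, u ≠ v → (T u v ↔ ¬ T v u)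

/-- `M` decycles `T`. -/
def Dec {V : Type} (T : V → V → Prop) (M : Matrix V V F2) : Prop :=
  ∃ f : V → ℕ, ∀ u v, u ≠ v → (T u v ↔ M u v = 0) → f u < f v

/-- The Gram matrix of the columns of `X`. -/
def gram {V : Type} {k : ℕ} (X : Fin k → V → F2) : Matrix V V F2 :=
  fun u v => ∑ i, X i u * X i v

lemma gram_symm {V : Type} {k : ℕ} (X : Fin k → V → F2) : (gram X).IsSymm := by
  ext u v
  simp [gram, mul_comm]

lemma gram_cons {V : Type} {k : ℕ} (x : V → F2) (X : Fin k → V → F2) (u v : V) :
    gram (Fin.cons x X : Fin (k + 1) → V → F2) u v = x u * x v + gram X u v := by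
  simp [gram, Fin.sum_univ_succ]

lemma gram_rank {V : Type} [Fintype V] {k : ℕ} (X : Fin k → V → F2) : (gram X).rank ≤ k := by
  have : gram X = (Matrix.of X)ᵀ * (Matrix.of X) := by
    ext u v
    simp [gram, Matrix.mul_apply]
  rw [this]
  exact (Matrix.rank_mul_le_right _ _).trans ((Matrix.rank_le_card_height _).trans (by simp))

/-- `k` inversions decycle `T`. -/
def Inv {V : Type} (T : V → V → Prop) (k : ℕ) : Prop :=
  ∃ X : Fin k → V → F2, Dec T (gram X)

/-- some symmetric matrix of rank `r` decycles `T`. -/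
def Tm {V : Type} [Fintype V] (T : V → V → Prop) (r : ℕ) : Prop :=
  ∃ M : Matrix V V F2, M.IsSymm ∧ M.rank = r ∧ Dec T M

noncomputable def inv {V : Type} (T : V → V → Prop) : ℕ := sInf {k | Inv T k}

noncomputable def tmr {V : Type} [Fintype V] (T : V → V → Prop) : ℕ := sInf {r | Tm T r}

section Lempel

variable {V : Type} [Fintype V] [DecidableEq V]

lemma dot_symm {M : Matrix V V F2} (hM : M.IsSymm) (y z : V → F2) :
    (M *ᵥ y) ⬝ᵥ z = y ⬝ᵥ (M *ᵥ z) := by
  rw [Matrix.dotProduct_mulVec, ← Matrix.mulVec_transpose, hM.eq]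

lemma upd_mulVec (M : Matrix V V F2) (x z : V → F2) :
    (M + vecMulVec x x) *ᵥ z = M *ᵥ z + (x ⬝ᵥ z) • x := by
  rw [Matrix.add_mulVec, Matrix.vecMulVec_mulVec]
  simp

lemma rank_upd_le (M : Matrix V V F2) (y : V → F2) :
    (M + vecMulVec (M *ᵥ y) (M *ᵥ y)).rank ≤ M.rank := by
  unfold Matrix.rank
  apply Submodule.finrank_mono
  rintro _ ⟨z, rfl⟩
  refine ⟨z + ((M *ᵥ y) ⬝ᵥ z) • y, ?_⟩
  simp only [Matrix.mulVecLin_apply]
  rw [upd_mulVec, Matrix.mulVec_add, Matrix.mulVec_smul]

lemma rank_upd_lt {M : Matrix V V F2} (hM : M.IsSymm) (y : V → F2)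
    (hy : y ⬝ᵥ (M *ᵥ y) = 1) :
    (M + vecMulVec (M *ᵥ y) (M *ᵥ y)).rank < M.rank := by
  set M' := M + vecMulVec (M *ᵥ y) (M *ᵥ y) with hM'
  have h1 := LinearMap.finrank_range_add_finrank_ker M.mulVecLin
  have h2 := LinearMap.finrank_range_add_finrank_ker M'.mulVecLin
  have hlt : LinearMap.ker M.mulVecLin < LinearMap.ker M'.mulVecLin := by
    refine lt_of_le_of_ne ?_ ?_
    · intro z hz
      simp only [LinearMap.mem_ker, Matrix.mulVecLin_apply] at hz ⊢
      rw [hM', upd_mulVec, dot_symm hM, hz]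
      simp
    · intro h
      have : y ∈ LinearMap.ker M'.mulVecLin := by
        simp only [LinearMap.mem_ker, Matrix.mulVecLin_apply]
        rw [hM', upd_mulVec, dot_symm hM, hy, one_smul]
        ext i
        exact F2_add_self _
      rw [← h] at this
      simp only [LinearMap.mem_ker, Matrix.mulVecLin_apply] at this
      rw [this] at hy
      simp at hy
  have := Submodule.finrank_lt_finrank_of_lt hlt
  unfold Matrix.rank
  omega

omit [Fintype V] [DecidableEq V] in
lemma upd_symm {M : Matrix V V F2} (hM : M.IsSymm) (x : V → F2) :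
    (M + vecMulVec x x).IsSymm := by
  ext u v
  simp [Matrix.vecMulVec_apply, hM.apply, mul_comm]

omit [Fintype V] [DecidableEq V] in
lemma gram_of_upd {k : ℕ} {M : Matrix V V F2} (x : V → F2) (X : Fin k → V → F2)
    (h : M + vecMulVec x x = gram X) :
    M = gram (Fin.cons x X : Fin (k + 1) → V → F2) := by
  ext u v
  rw [gram_cons, ← h]
  simp only [Matrix.add_apply, Matrix.vecMulVec_apply]
  rw [add_comm (M u v), ← add_assoc, F2_add_self, zero_add]

lemma lempel : ∀ (r : ℕ) (M : Matrix V V F2), M.IsSymm → M.rank ≤ r →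
    ((∃ i, M i i = 1) ∨ M = 0) → ∃ X : Fin r → V → F2, M = gram X := by
  intro r
  induction r with
  | zero =>
    intro M hM hr h
    rcases h with ⟨i, hi⟩ | rfl
    · have := rank_upd_lt hM (Pi.single i 1) (by simp [hi])
      omega
    · exact ⟨fun _ _ => 0, by ext u v; simp [gram]⟩
  | succ r ih =>
    intro M hM hr h
    rcases h with ⟨i, hi⟩ | rfl
    swap
    · exact ⟨fun _ _ => 0, by ext u v; simp [gram]⟩
    by_cases hc : ∃ y : V → F2, y ⬝ᵥ (M *ᵥ y) = 1 ∧ ∃ w, (M *ᵥ y) w ≠ M w w
    · obtain ⟨y, hy, w, hw⟩ := hc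
      have h1 := rank_upd_lt hM y hy
      obtain ⟨X, hX⟩ := ih _ (upd_symm hM (M *ᵥ y)) (by omega) (Or.inl ⟨w, by
        simp only [Matrix.add_apply, Matrix.vecMulVec_apply, F2_mul_self]
        revert hw
        generalize (M *ᵥ y) w = a
        generalize M w w = b
        revert a b; decide⟩)
      exact ⟨_, gram_of_upd _ X hX⟩
    · push Not at hc
      have hi' : ∀ w, M w i = M w w := by
        intro w
        have := hc (Pi.single i 1) (by simp [hi]) w
        simpa using this
      have key : ∀ w j, M w j = M w w * M j j := by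
        intro w j
        rcases F2_cases (M j j) with hj | hj
        · have hji : j ≠ i := by
            rintro rfl
            rw [hi] at hj
            exact absurd hj (by decide)
          have := hc (Pi.single i 1 + Pi.single j 1) (by
            simp only [Matrix.mulVec_add, add_dotProduct, dotProduct_add, Matrix.mulVec_single_one,
              single_one_dotProduct, Matrix.col_apply, Pi.add_apply]
            rw [hi, hj, hM.apply i j]
            generalize M i j = a
            revert a; decide) w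
          simp only [Matrix.mulVec_add, Matrix.mulVec_single_one, Pi.add_apply,
            Matrix.col_apply] at this
          rw [hi' w] at this
          rw [hj, mul_zero]
          exact add_eq_left.mp this
        · have := hc (Pi.single j 1) (by simp [hj]) w
          rw [hj, mul_one]
          simpa using this
      refine ⟨_, gram_of_upd (fun w => M w w) (fun _ _ => 0) ?_⟩
      ext u v
      simp only [Matrix.add_apply, Matrix.vecMulVec_apply, gram]
      rw [← key, F2_add_self]
      simp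

lemma lempel_succ (r : ℕ) (M : Matrix V V F2) (hM : M.IsSymm) (hr : M.rank ≤ r) :
    ∃ X : Fin (r + 1) → V → F2, M = gram X := by
  by_cases h : (∃ i, M i i = 1) ∨ M = 0
  · exact lempel (r + 1) M hM (by omega) h
  · push Not at h
    obtain ⟨h1, h2⟩ := h
    have : ∃ i j, M i j ≠ 0 := by
      by_contra hc
      push Not at hc
      exact h2 (by ext i j; exact hc i j)
    obtain ⟨i, j, hij⟩ := this
    obtain ⟨X, hX⟩ := lempel r _ (upd_symm hM (M *ᵥ Pi.single j 1))
      ((rank_upd_le M _).trans hr) (Or.inl ⟨i, by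
        simp only [Matrix.add_apply, Matrix.vecMulVec_apply, F2_mul_self, Matrix.mulVec_single_one,
          Matrix.col_apply]
        have := h1 i
        revert this hij
        generalize M i j = a
        generalize M i i = b
        revert a b; decide⟩)
    exact ⟨_, gram_of_upd _ X hX⟩

omit [Fintype V] [DecidableEq V] in
lemma gram_parity {k : ℕ} (X : Fin (k + 1) → V → F2) (hk : Even (k + 1))
    (hd : ∀ u, gram X u u = 0) : ∃ X' : Fin k → V → F2, gram X = gram X' := by
  refine ⟨fun i u => X i.succ u + X 0 u, ?_⟩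
  have hs : ∀ u, ∑ i, X i u = 0 := by
    intro u
    have := hd u
    simpa [gram, F2_mul_self] using this
  ext u v
  have e : ∑ i : Fin (k + 1), (X i u + X 0 u) * (X i v + X 0 v) =
      gram (fun i u => X (Fin.succ i) u + X 0 u) u v := by
    rw [Fin.sum_univ_succ, F2_add_self, zero_mul, zero_add]
    rfl
  rw [← e]
  have hk' : ((k + 1 : ℕ) : F2) = 0 := ZMod.natCast_eq_zero_iff_even.mpr hk
  simp only [mul_add, add_mul, Finset.sum_add_distrib, ← Finset.sum_mul, ← Finset.mul_sum, hs,
    Finset.sum_const, Finset.card_univ, Fintype.card_fin, nsmul_eq_mul, hk']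
  simp [gram]

end Lempel

section Numbers

variable {V : Type} [Fintype V] [DecidableEq V]

omit [DecidableEq V] in
lemma exists_dec {T : V → V → Prop} (hT : IsT T) : ∃ M : Matrix V V F2, M.IsSymm ∧ Dec T M := by
  classical
  let f : V → ℕ := fun u => (Fintype.equivFin V u : ℕ)
  have hf : Function.Injective f := fun a b h =>
    (Fintype.equivFin V).injective (Fin.ext h)
  refine ⟨fun u v => if u = v then 0 else if (T u v ↔ f u < f v) then 0 else 1, ?_, f, ?_⟩
  · ext u v
    simp only [Matrix.transpose_apply]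
    by_cases huv : u = v
    · subst huv; rfl
    · have h1 := hT.2 u v huv
      have h2 : f u ≠ f v := fun h => huv (hf h)
      have h3 : (T v u ↔ f v < f u) ↔ (T u v ↔ f u < f v) := by
        have : f v < f u ↔ ¬ f u < f v := by omega
        tauto
      simp only [huv, Ne.symm huv, if_false, h3]
  · intro u v huv h
    simp only [huv, if_false] at h
    by_cases h1 : (T u v ↔ f u < f v)
    · simp only [h1, iff_self, if_true, iff_true] at h
      exact h
    · rw [if_neg h1] at h
      have : ¬ T u v := fun h2 => absurd (h.1 h2) (by decide)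
      tauto

lemma inv_nonempty {T : V → V → Prop} (hT : IsT T) : {k | Inv T k}.Nonempty := by
  obtain ⟨M, h1, h2⟩ := exists_dec hT
  obtain ⟨X, hX⟩ := lempel_succ _ M h1 le_rfl
  exact ⟨_, X, hX ▸ h2⟩

lemma inv_spec {T : V → V → Prop} (hT : IsT T) : Inv T (inv T) :=
  Nat.sInf_mem (inv_nonempty hT)

omit [DecidableEq V] in
lemma tmr_spec {T : V → V → Prop} (hT : IsT T) : Tm T (tmr T) := by
  obtain ⟨M, h1, h2⟩ := exists_dec hT
  exact Nat.sInf_mem (s := {r | Tm T r}) ⟨_, M, h1, rfl, h2⟩

omit [Fintype V] [DecidableEq V] in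
lemma inv_le {T : V → V → Prop} {k : ℕ} (h : Inv T k) : inv T ≤ k := Nat.sInf_le h

omit [DecidableEq V] in
lemma tmr_le_of_Inv {T : V → V → Prop} {k : ℕ} (h : Inv T k) : tmr T ≤ k := by
  obtain ⟨X, hX⟩ := h
  exact (Nat.sInf_le (s := {r | Tm T r}) ⟨_, gram_symm X, rfl, hX⟩).trans (gram_rank X)

lemma tmr_le_inv {T : V → V → Prop} (hT : IsT T) : tmr T ≤ inv T :=
  tmr_le_of_Inv (inv_spec hT)

lemma inv_eq_tmr_of_even {T : V → V → Prop} (hT : IsT T) (he : Even (inv T)) :
    inv T = tmr T := by
  refine le_antisymm ?_ (tmr_le_inv hT)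
  obtain ⟨M, h1, h2, h3⟩ := tmr_spec hT
  by_cases h : (∃ i, M i i = 1) ∨ M = 0
  · obtain ⟨X, hX⟩ := lempel _ M h1 h2.le h
    exact inv_le ⟨X, hX ▸ h3⟩
  · obtain ⟨X, hX⟩ := lempel_succ _ M h1 h2.le
    have h4 : inv T ≤ tmr T + 1 := inv_le ⟨X, hX ▸ h3⟩
    by_contra hc
    have h5 : inv T = tmr T + 1 := by omega
    push Not at h
    obtain ⟨X', hX'⟩ := gram_parity X (h5 ▸ he) (fun u => by
      rw [← hX]
      exact (F2_cases _).resolve_right (h.1 u))
    exact hc (inv_le ⟨X', hX' ▸ hX ▸ h3⟩)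

end Numbers

section Flip

variable {V : Type}

/-- invert the set with indicator `x`. -/
def flip (T : V → V → Prop) (x : V → F2) : V → V → Prop :=
  fun u v => u ≠ v ∧ (T u v ↔ x u * x v = 0)

lemma flip_isT {T : V → V → Prop} (hT : IsT T) (x : V → F2) : IsT (flip T x) := by
  refine ⟨fun u h => h.1 rfl, fun u v huv => ?_⟩
  have := hT.2 u v huv
  simp only [flip, ne_eq, huv, not_false_eq_true, true_and, Ne.symm huv, mul_comm (x v)]
  tauto

lemma F2_add_zero_iff (a b : F2) : a + b = 0 ↔ (a = 0 ↔ b = 0) := by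
  revert a b; decide

lemma dec_flip {T : V → V → Prop} (x : V → F2) {k : ℕ} (X : Fin k → V → F2) :
    Dec (flip T x) (gram X) ↔ Dec T (gram (Fin.cons x X : Fin (k + 1) → V → F2)) := by
  unfold Dec
  refine exists_congr fun f => forall_congr' fun u => forall_congr' fun v =>
    forall_congr' fun huv => ?_
  rw [gram_cons, F2_add_zero_iff]
  simp only [flip, ne_eq, huv, not_false_eq_true, true_and]
  tauto

lemma flip_flip {T : V → V → Prop} (x : V → F2) (u v : V) (huv : u ≠ v) :
    flip (flip T x) x u v ↔ T u v := by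
  simp only [flip, ne_eq, huv, not_false_eq_true, true_and]
  tauto

lemma dec_congr {T T' : V → V → Prop} (h : ∀ u v, u ≠ v → (T u v ↔ T' u v))
    {M : Matrix V V F2} (hM : Dec T M) : Dec T' M := by
  obtain ⟨f, hf⟩ := hM
  exact ⟨f, fun u v huv h1 => hf u v huv ((h u v huv).trans h1)⟩

lemma Inv_of_flip {T : V → V → Prop} (x : V → F2) {k : ℕ} (h : Inv (flip T x) k) :
    Inv T (k + 1) := by
  obtain ⟨X, hX⟩ := h
  exact ⟨_, (dec_flip x X).1 hX⟩

lemma Inv_flip {T : V → V → Prop} (x : V → F2) {k : ℕ} (h : Inv T k) :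
    Inv (flip T x) (k + 1) := by
  apply Inv_of_flip x
  obtain ⟨X, hX⟩ := h
  exact ⟨X, dec_congr (fun u v huv => (flip_flip x u v huv).symm) hX⟩

/-- One inversion makes the inversion number even. -/
lemma exists_even [Fintype V] [DecidableEq V] {T : V → V → Prop} (hT : IsT T) :
    ∃ x : V → F2, Even (inv (flip T x)) ∧ inv T ≤ inv (flip T x) + 1 := by
  have gen : ∀ x, inv T ≤ inv (flip T x) + 1 := fun x =>
    inv_le (Inv_of_flip x (inv_spec (flip_isT hT x)))
  rcases Nat.even_or_odd (inv T) with he | ⟨k, hk⟩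
  · refine ⟨0, ?_, gen _⟩
    have : inv (flip T 0) = inv T := by
      unfold inv
      congr 1
      ext k
      have e : ∀ u v, u ≠ v → (flip T 0 u v ↔ T u v) := fun u v huv => by simp [flip, huv]
      exact ⟨fun ⟨X, hX⟩ => ⟨X, dec_congr e hX⟩,
        fun ⟨X, hX⟩ => ⟨X, dec_congr (fun u v huv => (e u v huv).symm) hX⟩⟩
    rwa [this]
  · have h := inv_spec hT
    rw [hk] at h
    obtain ⟨X, hX⟩ := h
    refine ⟨X 0, ?_, gen _⟩
    have h1 : inv (flip T (X 0)) ≤ 2 * k := by
      refine inv_le ⟨Fin.tail X, (dec_flip _ _).2 ?_⟩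
      rwa [Fin.cons_self_tail]
    have h2 := gen (X 0)
    have : inv (flip T (X 0)) = 2 * k := by omega
    rw [this]
    exact even_two_mul k

/-- the dijoin -/
def dj {W : Type} (T₁ : V → V → Prop) (T₂ : W → W → Prop) : V ⊕ W → V ⊕ W → Prop
  | Sum.inl a, Sum.inl b => T₁ a b
  | Sum.inl _, Sum.inr _ => True
  | Sum.inr _, Sum.inl _ => False
  | Sum.inr a, Sum.inr b => T₂ a b

lemma Inv_dj_flip {W : Type} {T₁ : V → V → Prop} {T₂ : W → W → Prop} (x : V → F2) (y : W → F2)
    {k : ℕ} (h : Inv (dj T₁ T₂) k) : Inv (dj (flip T₁ x) (flip T₂ y)) (k + 2) := by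
  have h1 := Inv_flip (Sum.elim 0 y) (Inv_flip (Sum.elim x 0) h)
  obtain ⟨X, hX⟩ := h1
  refine ⟨X, dec_congr ?_ hX⟩
  rintro (a | a) (b | b) hab
  · have : a ≠ b := fun h => hab (by rw [h])
    simp [flip, dj, this]
  · simp [flip, dj]
  · simp [flip, dj]
  · have : a ≠ b := fun h => hab (by rw [h])
    simp [flip, dj, this]

end Flip

end Pool.Agent.H535Z.Dijoin
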