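import Pool.Agent.H535Z.Dijoin.Main

/-!
Other encodings of decycling families.
-/

set_option autoImplicit false
set_option maxHeartbeats 400000

open Matrix Finset

namespace Pool.Agent.H535Z.Dijoin

variable {V : Type}

lemma F2_ne_zero (a : F2) : a = 1 ↔ ¬ a = 0 := by
  revert a; decide

lemma arc_iff {T : V → V → Prop} (hT : IsT T) (u v : V) (a : F2) :
    ((T u v ∧ a = 0) ∨ (T v u ∧ a = 1)) ↔ (u ≠ v ∧ (T u v ↔ a = 0)) := by
  by_cases huv : u = v
  · subst huv
    have := hT.1 u
    tauto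
  · have := hT.2 u v huv
    rw [F2_ne_zero]
    tauto

lemma dec_iff_f {T : V → V → Prop} (hT : IsT T) (M : Matrix V V F2) :
    (∃ f : V → ℕ, ∀ u v, ((T u v ∧ M u v = 0) ∨ (T v u ∧ M u v = 1)) → f u < f v) ↔ Dec T M := by
  refine exists_congr fun f => forall_congr' fun u => forall_congr' fun v => ?_
  rw [arc_iff hT]
  tauto

lemma acyclic_iff [Fintype V] (R : V → V → Prop) :
    (∀ x, ¬ Relation.TransGen R x x) ↔ ∃ f : V → ℕ, ∀ u v, R u v → f u < f v := by
  classical
  constructor
  · intro h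
    refine ⟨fun u => (univ.filter fun w => Relation.TransGen R w u).card, fun u v huv => ?_⟩
    refine Finset.card_lt_card ⟨fun w hw => ?_, fun hc => ?_⟩
    · simp only [mem_filter, mem_univ, true_and] at hw ⊢
      exact hw.tail huv
    · have := hc (show u ∈ _ by simpa using Relation.TransGen.single huv)
      simp only [mem_filter, mem_univ, true_and] at this
      exact h u this
  · rintro ⟨f, hf⟩ x hx
    have : ∀ a b, Relation.TransGen R a b → f a < f b := by
      intro a b hab
      induction hab with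
      | single h => exact hf _ _ h
      | tail _ h ih => exact ih.trans (hf _ _ h)
    exact lt_irrefl _ (this x x hx)

lemma dec_iff_acyclic [Fintype V] {T : V → V → Prop} (hT : IsT T) (M : Matrix V V F2) :
    (∀ x, ¬ Relation.TransGen
      (fun u v => (T u v ∧ M u v = 0) ∨ (T v u ∧ M u v = 1)) x x) ↔ Dec T M := by
  rw [acyclic_iff, dec_iff_f hT]

lemma dj_isT {W : Type} {T₁ : V → V → Prop} {T₂ : W → W → Prop} (h1 : IsT T₁) (h2 : IsT T₂) :
    IsT (dj T₁ T₂) := by
  constructor
  · rintro (a | a)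
    · exact h1.1 a
    · exact h2.1 a
  · rintro (a | a) (b | b) hab
    · exact h1.2 a b fun h => hab (by rw [h])
    · simp [dj]
    · simp [dj]
    · exact h2.2 a b fun h => hab (by rw [h])

lemma card_cast {k : ℕ} (p q : Fin k → Prop) [DecidablePred p] [DecidablePred q]
    [DecidablePred fun i => p i ∧ q i] :
    (((univ.filter fun i => p i ∧ q i).card : ℕ) : F2) =
      ∑ i, (if p i then (1 : F2) else 0) * (if q i then (1 : F2) else 0) := by
  rw [Finset.card_filter]
  push_cast
  refine Finset.sum_congr rfl fun i _ => ?_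
  by_cases hp : p i <;> by_cases hq : q i <;> simp [hp, hq]

lemma ite_one (a : F2) : (if a = 1 then (1 : F2) else 0) = a := by
  revert a; decide

lemma Inv_iff_set {T : V → V → Prop} (hT : IsT T) (k : ℕ) :
    (∃ X : Fin k → Set V, ∃ f : V → ℕ, ∀ u v,
      (T u v ∧ Even (Nat.card {j : Fin k // u ∈ X j ∧ v ∈ X j})) ∨
      (T v u ∧ Odd (Nat.card {j : Fin k // u ∈ X j ∧ v ∈ X j})) → f u < f v) ↔ Inv T k := by
  classical
  have key : ∀ (X : Fin k → Set V) (u v : V),
      ((Nat.card {j : Fin k // u ∈ X j ∧ v ∈ X j} : ℕ) : F2) =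
        gram (fun i w => if w ∈ X i then (1 : F2) else 0) u v := by
    intro X u v
    rw [Nat.card_eq_fintype_card, Fintype.card_subtype, card_cast]
    rfl
  constructor
  · rintro ⟨X, f, hf⟩
    refine ⟨fun i w => if w ∈ X i then (1 : F2) else 0, (dec_iff_f hT _).1 ⟨f, fun u v h => ?_⟩⟩
    apply hf
    rw [← key, ZMod.natCast_eq_zero_iff_even, ZMod.natCast_eq_one_iff_odd] at h
    exact h
  · rintro ⟨X, hX⟩
    obtain ⟨f, hf⟩ := (dec_iff_f hT _).2 hX
    refine ⟨fun i => {w | X i w = 1}, f, fun u v h => hf u v ?_⟩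
    have k2 : ((Nat.card {j : Fin k // u ∈ {w | X j w = 1} ∧ v ∈ {w | X j w = 1}} : ℕ) : F2) =
        gram X u v := by
      refine (key (fun i => {w | X i w = 1}) u v).trans ?_
      congr 1
      funext i w
      rcases F2_cases (X i w) with h0 | h0 <;> simp [h0]
    rw [← ZMod.natCast_eq_zero_iff_even, ← ZMod.natCast_eq_one_iff_odd, k2] at h
    exact h

lemma Inv_iff_finset [Fintype V] [DecidableEq V] {T : V → V → Prop} (hT : IsT T) (k : ℕ) :
    (∃ X : Fin k → Finset V, ∃ f : V → ℕ, ∀ u v,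
      ((T u v ∧ Even (univ.filter (fun i => u ∈ X i ∧ v ∈ X i)).card) ∨
       (T v u ∧ Odd (univ.filter (fun i => u ∈ X i ∧ v ∈ X i)).card)) → f u < f v) ↔ Inv T k := by
  have key : ∀ (X : Fin k → Finset V) (u v : V),
      (((univ.filter (fun i => u ∈ X i ∧ v ∈ X i)).card : ℕ) : F2) =
        gram (fun i w => if w ∈ X i then (1 : F2) else 0) u v := by
    intro X u v
    rw [card_cast]
    rfl
  constructor
  · rintro ⟨X, f, hf⟩
    refine ⟨fun i w => if w ∈ X i then (1 : F2) else 0, (dec_iff_f hT _).1 ⟨f, fun u v h => ?_⟩⟩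
    apply hf
    rw [← key, ZMod.natCast_eq_zero_iff_even, ZMod.natCast_eq_one_iff_odd] at h
    exact h
  · rintro ⟨X, hX⟩
    obtain ⟨f, hf⟩ := (dec_iff_f hT _).2 hX
    refine ⟨fun i => univ.filter fun w => X i w = 1, f, fun u v h => hf u v ?_⟩
    rw [← ZMod.natCast_eq_zero_iff_even, ← ZMod.natCast_eq_one_iff_odd, key] at h
    have e : (fun i w => if w ∈ (univ.filter fun w => X i w = 1) then (1 : F2) else 0) = X := by
      funext i w
      simp only [mem_filter, mem_univ, true_and]
      exact ite_one _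
    rw [e] at h
    exact h

lemma Tm_iff_order [Fintype V] {T : V → V → Prop} (hT : IsT T) (r : ℕ) :
    (∃ f : V → ℕ, Function.Injective f ∧ ∃ M : Matrix V V F2, M.IsSymm ∧
      (∀ u v, u ≠ v → (M u v = 1 ↔ ((T u v ∧ f v < f u) ∨ (T v u ∧ f u < f v)))) ∧
      M.rank = r) ↔ Tm T r := by
  constructor
  · rintro ⟨f, hf, M, h1, h2, h3⟩
    refine ⟨M, h1, h3, f, fun u v huv h => ?_⟩
    have a1 := h2 u v huv
    have a2 := hT.2 u v huv
    have a3 : f u ≠ f v := hf.ne huv
    rw [F2_ne_zero] at a1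
    by_contra hc
    have a4 : f v < f u := by omega
    tauto
  · rintro ⟨M, h1, h2, f, hf⟩
    have key : ∀ u v, u ≠ v → ((T u v ↔ M u v = 0) ↔ f u < f v) ∧ f u ≠ f v := by
      intro u v huv
      have a1 := hf u v huv
      have a2 := hf v u (Ne.symm huv)
      have a3 := hT.2 u v huv
      rw [h1.apply u v] at a2
      by_cases h : (T u v ↔ M u v = 0)
      · have := a1 h
        exact ⟨by tauto, by omega⟩
      · have : f v < f u := a2 (by tauto)
        have h' : ¬ f u < f v := by omega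
        exact ⟨by tauto, by omega⟩
    refine ⟨f, fun u v h => ?_, M, h1, fun u v huv => ?_, h2⟩
    · by_contra huv
      exact (key u v huv).2 h
    · obtain ⟨a1, a2⟩ := key u v huv
      have a3 := hT.2 u v huv
      have a4 : f v < f u ↔ ¬ f u < f v := by omega
      rw [F2_ne_zero, a4]
      by_cases b1 : T u v <;> by_cases b2 : M u v = 0 <;> by_cases b3 : f u < f v <;> simp_all

lemma Inv_pullback {W : Type} {T : V → V → Prop} {T' : W → W → Prop} (e : W → V)
    (he : Function.Injective e) (h : ∀ u v, T' u v ↔ T (e u) (e v)) {k : ℕ} (hk : Inv T k) :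
    Inv T' k := by
  obtain ⟨X, f, hf⟩ := hk
  exact ⟨fun i w => X i (e w), fun w => f (e w), fun u v huv h1 =>
    hf _ _ (he.ne huv) ((h u v).symm.trans h1)⟩

lemma isT_pullback {W : Type} {T : V → V → Prop} {T' : W → W → Prop} (e : W → V)
    (he : Function.Injective e) (h : ∀ u v, T' u v ↔ T (e u) (e v)) (hT : IsT T) : IsT T' :=
  ⟨fun u hu => hT.1 _ ((h u u).1 hu), fun u v huv => by
    rw [h, h]; exact hT.2 _ _ (he.ne huv)⟩

end Pool.Agent.H535Z.Dijoin
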