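import Pool.Agent.H535Z.Dijoin.Basic

/-!
Counting symmetric matrices of low rank and tournaments with a decycling matrix of low rank.
-/

set_option autoImplicit false
set_option maxHeartbeats 400000

open Matrix Finset

namespace Pool.Agent.H535Z.Dijoin

variable {n : ℕ}

/-- the tournament obtained from the natural order by reversing the pairs marked by `A`. -/
def tour (A : Matrix (Fin n) (Fin n) F2) : Fin n → Fin n → Prop :=
  fun u v => u ≠ v ∧ (u < v ↔ A u v = 0)

lemma tour_isT {A : Matrix (Fin n) (Fin n) F2} (hA : A.IsSymm) : IsT (tour A) := by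
  refine ⟨fun u h => h.1 rfl, fun u v huv => ?_⟩
  have h1 : v < u ↔ ¬ u < v := by
    constructor
    · intro h; exact not_lt.2 h.le
    · intro h; exact lt_of_le_of_ne (not_lt.1 h) (Ne.symm huv)
  simp only [tour, ne_eq, huv, not_false_eq_true, true_and, Ne.symm huv, hA.apply u v, h1]
  tauto

lemma span_cols (M : Matrix (Fin n) (Fin n) F2) (r : ℕ) (hr : M.rank ≤ r) (hrn : r ≤ n) :
    ∃ I : Finset (Fin n), I.card = r ∧
      ∀ j, ∃ c : Fin n → F2, (∀ i, i ∉ I → c i = 0) ∧ ∀ w, M w j = ∑ i, M w i * c i := by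
  classical
  obtain ⟨κ, a, ha, hsp, hli⟩ := exists_linearIndependent' F2 M.col
  have hfin : Finite κ := Finite.of_injective a ha
  have := Fintype.ofFinite κ
  have hcard : Fintype.card κ = M.rank := by
    rw [Matrix.rank_eq_finrank_span_cols, ← hsp]
    exact (finrank_span_eq_card hli).symm
  have h1 : (univ.image a).card ≤ r := by
    rw [Finset.card_image_of_injective _ ha, Finset.card_univ, hcard]
    exact hr
  obtain ⟨I, hI, -, hIc⟩ := Finset.exists_subsuperset_card_eq (Finset.subset_univ (univ.image a)) h1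
    (by simpa using hrn)
  refine ⟨I, hIc, fun j => ?_⟩
  have hj : M.col j ∈ Submodule.span F2 (Set.range (M.col ∘ a)) := by
    rw [hsp]
    exact Submodule.subset_span ⟨j, rfl⟩
  generalize hx : M.col j = x at hj
  have : ∃ c : Fin n → F2, (∀ i, i ∉ I → c i = 0) ∧ ∀ w, x w = ∑ i, M w i * c i := by
    clear hx
    induction hj using Submodule.span_induction with
    | mem x hx =>
      obtain ⟨k, rfl⟩ := hx
      refine ⟨Pi.single (a k) 1, fun i hi => ?_, fun w => ?_⟩
      · have : i ≠ a k := by
          rintro rfl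
          exact hi (hI (Finset.mem_image_of_mem _ (Finset.mem_univ k)))
        simp [this]
      · simp [Pi.single_apply]
    | zero => exact ⟨0, fun _ _ => rfl, fun w => by simp⟩
    | add x y _ _ ihx ihy =>
      obtain ⟨c, hc1, hc2⟩ := ihx
      obtain ⟨d, hd1, hd2⟩ := ihy
      refine ⟨c + d, fun i hi => by simp [hc1 i hi, hd1 i hi], fun w => ?_⟩
      simp [hc2, hd2, mul_add, Finset.sum_add_distrib]
    | smul t x _ ihx =>
      obtain ⟨c, hc1, hc2⟩ := ihx
      refine ⟨t • c, fun i hi => by simp [hc1 i hi], fun w => ?_⟩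
      simp [hc2, Finset.mul_sum, mul_left_comm]
  obtain ⟨c, h1, h2⟩ := this
  refine ⟨c, h1, fun w => ?_⟩
  rw [← h2, ← hx]
  rfl

/-- columns in `I` span all columns. -/
def Sp (I : Finset (Fin n)) (M : Matrix (Fin n) (Fin n) F2) : Prop :=
  ∀ j, ∃ c : Fin n → F2, (∀ i, i ∉ I → c i = 0) ∧ ∀ w, M w j = ∑ i, M w i * c i

lemma eq_of_Sp {I : Finset (Fin n)} {M N : Matrix (Fin n) (Fin n) F2} (hM : M.IsSymm)
    (hN : N.IsSymm) (sM : Sp I M) (sN : Sp I N) (h : ∀ w i, i ∈ I → M w i = N w i) : M = N := by
  ext k j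
  obtain ⟨c, c1, c2⟩ := sM k
  obtain ⟨d, d1, d2⟩ := sN j
  have hc : ∀ (g g' : Fin n → F2) (e : Fin n → F2), (∀ i, i ∉ I → e i = 0) →
      (∀ i, i ∈ I → g i = g' i) → ∑ i, g i * e i = ∑ i, g' i * e i := by
    intro g g' e he hg
    refine Finset.sum_congr rfl fun i _ => ?_
    by_cases hi : i ∈ I
    · rw [hg i hi]
    · rw [he i hi, mul_zero, mul_zero]
  calc M k j = M j k := (hM.apply j k)
    _ = ∑ i, M j i * c i := c2 j
    _ = ∑ i, (∑ l, M l i * d l) * c i := by
        refine hc _ _ c c1 fun i hi => ?_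
        rw [h j i hi, hN.apply i j, d2 i]
        refine hc _ _ d d1 fun l hl => ?_
        rw [← h i l hl, hM.apply l i]
    _ = ∑ l, (∑ i, M l i * c i) * d l := by
        simp only [Finset.sum_mul]
        rw [Finset.sum_comm]
        refine Finset.sum_congr rfl fun l _ => Finset.sum_congr rfl fun i _ => by ring
    _ = ∑ l, N k l * d l := by
        refine hc _ _ d d1 fun l hl => ?_
        rw [← c2 l, ← h k l hl, hM.apply k l]
    _ = N k j := (d2 k).symm

/-- increasing pairs meeting `I`. -/
def ltQ (I : Finset (Fin n)) : Finset (Fin n × Fin n) :=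
  univ.filter fun p => p.1 < p.2 ∧ (p.1 ∈ I ∨ p.2 ∈ I)

lemma card_ltQ (I : Finset (Fin n)) :
    2 * (ltQ I).card + (n - I.card) * (n - I.card) ≤ n * n := by
  classical
  have h1 : ((ltQ I).image Prod.swap).card = (ltQ I).card :=
    Finset.card_image_of_injective _ Prod.swap_injective
  have h2 : (Iᶜ ×ˢ Iᶜ).card = (n - I.card) * (n - I.card) := by
    rw [Finset.card_product, Finset.card_compl, Fintype.card_fin]
  have d1 : Disjoint (ltQ I) ((ltQ I).image Prod.swap) := by
    rw [Finset.disjoint_left]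
    rintro p hp hq
    obtain ⟨q, hq1, rfl⟩ := Finset.mem_image.1 hq
    simp only [ltQ, mem_filter, mem_univ, true_and, Prod.fst_swap, Prod.snd_swap] at hp hq1
    exact lt_asymm hp.1 hq1.1
  have d2 : Disjoint (ltQ I ∪ (ltQ I).image Prod.swap) (Iᶜ ×ˢ Iᶜ) := by
    rw [Finset.disjoint_left]
    rintro p hp hq
    simp only [mem_product, mem_compl] at hq
    rcases Finset.mem_union.1 hp with hp | hp
    · simp only [ltQ, mem_filter, mem_univ, true_and] at hp
      tauto
    · obtain ⟨q, hq1, rfl⟩ := Finset.mem_image.1 hp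
      simp only [ltQ, mem_filter, mem_univ, true_and, Prod.fst_swap, Prod.snd_swap] at hq1 hq
      tauto
  have h3 := Finset.card_le_univ ((ltQ I ∪ (ltQ I).image Prod.swap) ∪ Iᶜ ×ˢ Iᶜ)
  rw [Finset.card_union_of_disjoint d2, Finset.card_union_of_disjoint d1, h1, h2,
    Fintype.card_prod, Fintype.card_fin] at h3
  omega

lemma card_lt_univ : n * n ≤ 2 * (ltQ (univ : Finset (Fin n))).card + n := by
  classical
  have h1 : ((ltQ (univ : Finset (Fin n))).image Prod.swap).card = (ltQ univ).card :=
    Finset.card_image_of_injective _ Prod.swap_injective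
  have h2 : (univ : Finset (Fin n × Fin n)) ⊆
      (ltQ univ ∪ (ltQ univ).image Prod.swap) ∪ univ.image (fun i : Fin n => (i, i)) := by
    rintro ⟨a, b⟩ -
    rcases lt_trichotomy a b with h | rfl | h
    · simp [ltQ, h]
    · simp
    · refine Finset.mem_union_left _ (Finset.mem_union_right _ ?_)
      exact Finset.mem_image.2 ⟨(b, a), by simp [ltQ, h], rfl⟩
  have h3 := Finset.card_le_card h2
  have h4 := Finset.card_union_le (ltQ univ ∪ (ltQ univ).image Prod.swap)
    (univ.image (fun i : Fin n => (i, i)))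
  have h5 := Finset.card_union_le (ltQ (univ : Finset (Fin n))) ((ltQ univ).image Prod.swap)
  have h6 : (univ.image (fun i : Fin n => (i, i))).card ≤ n :=
    Finset.card_image_le.trans (by simp)
  rw [Finset.card_univ, Fintype.card_prod, Fintype.card_fin] at h3
  omega

open Classical in
/-- symmetric matrices spanned by the columns in `I`. -/
noncomputable def SpSet (I : Finset (Fin n)) : Finset (Matrix (Fin n) (Fin n) F2) :=
  univ.filter fun M => M.IsSymm ∧ Sp I M

lemma card_SpSet (I : Finset (Fin n)) : (SpSet I).card ≤ 2 ^ n * 2 ^ (ltQ I).card := by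
  classical
  have : (SpSet I).card ≤ (univ : Finset ((Fin n → F2) × (ltQ I → F2))).card := by
    refine Finset.card_le_card_of_injOn
      (fun M => (fun i => M i i, fun p => M p.1.1 p.1.2)) (fun _ _ => Finset.mem_univ _) ?_
    intro M hM N hN h
    simp only [SpSet, coe_filter, mem_univ, true_and, Set.mem_ofPred_eq] at hM hN
    simp only [Prod.mk.injEq] at h
    refine eq_of_Sp hM.1 hN.1 hM.2 hN.2 fun w i hi => ?_
    rcases lt_trichotomy w i with hw | rfl | hw
    · exact congrFun h.2 ⟨(w, i), by simp [ltQ, hw, hi]⟩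
    · exact congrFun h.1 w
    · rw [hM.1.apply i w, hN.1.apply i w]
      exact congrFun h.2 ⟨(i, w), by simp [ltQ, hw, hi]⟩
  simpa [Fintype.card_prod, Fintype.card_fun, ZMod.card] using this

open Classical in
/-- symmetric matrices of rank at most `r`. -/
noncomputable def LowRank (n r : ℕ) : Finset (Matrix (Fin n) (Fin n) F2) :=
  univ.filter fun M => M.IsSymm ∧ M.rank ≤ r

lemma card_LowRank (r E : ℕ) (hr : r ≤ n) (hE : n * n ≤ 2 * E + 1 + (n - r) * (n - r)) :
    (LowRank n r).card ≤ 2 ^ n * (2 ^ n * 2 ^ E) := by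
  classical
  have h1 : LowRank n r ⊆ (powersetCard r (univ : Finset (Fin n))).biUnion SpSet := by
    intro M hM
    simp only [LowRank, mem_filter, mem_univ, true_and] at hM
    obtain ⟨I, hI, hs⟩ := span_cols M r hM.2 hr
    refine Finset.mem_biUnion.2 ⟨I, by simp [Finset.mem_powersetCard, hI], ?_⟩
    simp only [SpSet, mem_filter, mem_univ, true_and]
    exact ⟨hM.1, hs⟩
  refine (Finset.card_le_card h1).trans ((Finset.card_biUnion_le_card_mul _ _ (2 ^ n * 2 ^ E)
    fun I hI => ?_).trans (Nat.mul_le_mul_right _ ?_))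
  · refine (card_SpSet I).trans (Nat.mul_le_mul_left _ (Nat.pow_le_pow_right (by norm_num) ?_))
    have h2 := card_ltQ I
    rw [(Finset.mem_powersetCard.1 hI).2] at h2
    omega
  · refine (Finset.card_le_card (t := powerset univ) fun I _ => by simp).trans ?_
    simp

open Classical in
/-- symmetric matrices whose tournament has a decycling matrix of rank at most `r`. -/
noncomputable def Bad (n r : ℕ) : Finset (Matrix (Fin n) (Fin n) F2) :=
  univ.filter fun A => A.IsSymm ∧ ∃ M : Matrix (Fin n) (Fin n) F2,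
    M.IsSymm ∧ M.rank ≤ r ∧ Dec (tour A) M

lemma dec_fin {T : Fin n → Fin n → Prop} {M : Matrix (Fin n) (Fin n) F2} (h : Dec T M) :
    ∃ g : Fin n → Fin n, ∀ u v, u ≠ v → (T u v ↔ M u v = 0) → g u < g v := by
  obtain ⟨f, hf⟩ := h
  refine ⟨fun u => ⟨(univ.filter fun w => f w < f u).card, ?_⟩, fun u v huv h => ?_⟩
  · have : (univ.filter fun w => f w < f u) ⊂ univ := by
      refine Finset.filter_ssubset.2 ⟨u, Finset.mem_univ _, lt_irrefl _⟩
    simpa using Finset.card_lt_card this
  · have h1 := hf u v huv h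
    refine Fin.mk_lt_mk.2 (Finset.card_lt_card ⟨fun w hw => ?_, fun hc => ?_⟩)
    · simp only [mem_filter, mem_univ, true_and] at hw ⊢
      omega
    · have := hc (show u ∈ _ by simpa using h1)
      simp at this

lemma prop_aux {a a' b b' m p q : Prop} (a1 : (a ↔ m) → p) (a2 : (a' ↔ m) → q)
    (b1 : (b ↔ m) → p) (b2 : (b' ↔ m) → q) (tA : a ↔ ¬ a') (tB : b ↔ ¬ b') (hx : ¬ (p ∧ q)) :
    a ↔ b := by
  by_cases ha : a <;> by_cases hb : b <;> by_cases hm : m <;> simp_all

lemma prop_aux2 {p a b : Prop} (h : (p ↔ a) ↔ (p ↔ b)) : a ↔ b := by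
  tauto

lemma card_Bad (r : ℕ) : (Bad n r).card ≤ n ^ n * (2 ^ n * (LowRank n r).card) := by
  classical
  have hex : ∀ A : Matrix (Fin n) (Fin n) F2, ∃ q : (Fin n → Fin n) × Matrix (Fin n) (Fin n) F2,
      A ∈ Bad n r → q.2 ∈ LowRank n r ∧
        ∀ u v, u ≠ v → (tour A u v ↔ q.2 u v = 0) → q.1 u < q.1 v := by
    intro A
    by_cases hA : A ∈ Bad n r
    · have hA' := hA
      simp only [Bad, mem_filter, mem_univ, true_and] at hA'
      obtain ⟨-, M, h1, h2, h3⟩ := hA'
      obtain ⟨g, hg⟩ := dec_fin h3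
      exact ⟨(g, M), fun _ => ⟨by simp [LowRank, h1, h2], hg⟩⟩
    · exact ⟨(id, 0), fun h => absurd h hA⟩
  choose q hq using hex
  have : (Bad n r).card ≤ ((univ : Finset (Fin n → Fin n)) ×ˢ
      ((univ : Finset (Fin n → F2)) ×ˢ LowRank n r)).card := by
    refine Finset.card_le_card_of_injOn (fun A => ((q A).1, fun i => A i i, (q A).2))
      (fun A hA => by simpa using (hq A hA).1) ?_
    intro A hA B hB h
    simp only [Prod.mk.injEq] at h
    obtain ⟨e1, e2, e3⟩ := h
    have hA1 := hq A hA
    have hB1 := hq B hB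
    have sA : A.IsSymm := by
      have := hA
      simp only [Bad, coe_filter, mem_univ, true_and, Set.mem_ofPred_eq] at this
      exact this.1
    have sB : B.IsSymm := by
      have := hB
      simp only [Bad, coe_filter, mem_univ, true_and, Set.mem_ofPred_eq] at this
      exact this.1
    have sM : (q B).2.IsSymm := by
      have := hB1.1
      simp only [LowRank, mem_filter, mem_univ, true_and] at this
      exact this.1
    rw [e1, e3] at hA1
    ext u v
    by_cases huv : u = v
    · subst huv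
      exact congrFun e2 u
    · have a1 := hA1.2 u v huv
      have a2 := hA1.2 v u (Ne.symm huv)
      have b1 := hB1.2 u v huv
      have b2 := hB1.2 v u (Ne.symm huv)
      have tA := (tour_isT sA).2 u v huv
      have tB := (tour_isT sB).2 u v huv
      rw [sM.apply u v] at a2 b2
      have hx : ¬ ((q B).1 u < (q B).1 v ∧ (q B).1 v < (q B).1 u) := fun h => lt_asymm h.1 h.2
      have hAB : tour A u v ↔ tour B u v := prop_aux a1 a2 b1 b2 tA tB hx
      simp only [tour, ne_eq, huv, not_false_eq_true, true_and] at hAB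
      have : A u v = 0 ↔ B u v = 0 := prop_aux2 hAB
      revert this
      generalize A u v = a
      generalize B u v = b
      revert a b; decide
  simpa [Finset.card_product, Fintype.card_fun, ZMod.card] using this

end Pool.Agent.H535Z.Dijoin
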