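import Pool.Agent.H535Z.Dijoin.Count

/-!
Two tournaments on `128` vertices with tournament minimum rank at least `77` whose dijoin is decycled
by `128` inversions.
-/

set_option autoImplicit false
set_option maxHeartbeats 400000

open Matrix Finset

namespace Pool.Agent.H535Z.Dijoin

variable {n : ℕ}

lemma tri_inj {α : Type} [LinearOrder α] {b : Fin n → α} (hb : Function.Injective b)
    {L K : Matrix (Fin n) (Fin n) F2} (hL : L.BlockTriangular b) (hK : K.BlockTriangular b)
    (uL : IsUnit L.det) (uK : IsUnit K.det) (h : Lᵀ * L = Kᵀ * K) : L = K := by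
  have uK' : IsUnit Kᵀ.det := by rwa [Matrix.det_transpose]
  haveI := Matrix.invertibleOfIsUnitDet L uL
  haveI := Matrix.invertibleOfIsUnitDet Kᵀ uK'
  have h1 : (K * L⁻¹).BlockTriangular b :=
    hK.mul (Matrix.blockTriangular_inv_of_blockTriangular hL)
  have h2 : (Kᵀ⁻¹ * Lᵀ).BlockTriangular (OrderDual.toDual ∘ b) :=
    (Matrix.blockTriangular_inv_of_blockTriangular hK.transpose).mul hL.transpose
  have h3 : K * L⁻¹ = Kᵀ⁻¹ * Lᵀ := by
    calc K * L⁻¹ = Kᵀ⁻¹ * (Kᵀ * K) * L⁻¹ := by
          rw [← Matrix.mul_assoc, Matrix.nonsing_inv_mul _ uK', Matrix.one_mul]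
      _ = Kᵀ⁻¹ * Lᵀ * (L * L⁻¹) := by rw [← h]; simp only [Matrix.mul_assoc]
      _ = Kᵀ⁻¹ * Lᵀ := by rw [Matrix.mul_nonsing_inv _ uL, Matrix.mul_one]
  rw [← h3] at h2
  set A := K * L⁻¹ with hA
  have hd : A = Matrix.diagonal fun i => A i i := by
    ext i j
    by_cases hij : i = j
    · subst hij; simp
    · rw [Matrix.diagonal_apply_ne _ hij]
      rcases lt_or_gt_of_ne (hb.ne hij) with h4 | h4
      · exact h2 (show OrderDual.toDual (b j) < OrderDual.toDual (b i) from h4)
      · exact h1 h4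
  have uA : IsUnit A.det := by
    rw [hA, Matrix.det_mul]
    exact uK.mul (Matrix.isUnit_nonsing_inv_det _ uL)
  have h5 : ∀ i, A i i = 1 := by
    intro i
    rw [hd, Matrix.det_diagonal] at uA
    have := Finset.prod_ne_zero_iff.1 uA.ne_zero i (Finset.mem_univ i)
    exact (F2_cases _).resolve_left this
  have h6 : A = 1 := by
    rw [hd]
    simp only [h5]
    exact Matrix.diagonal_one
  calc L = A * L := by rw [h6, Matrix.one_mul]
    _ = K := by rw [hA, Matrix.mul_assoc, Matrix.nonsing_inv_mul _ uL, Matrix.mul_one]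

/-- the upper unitriangular matrix with entries `g`. -/
def upL (g : ltQ (univ : Finset (Fin n)) → F2) : Matrix (Fin n) (Fin n) F2 :=
  fun i j => if h : i < j then g ⟨(i, j), by simp [ltQ, h]⟩ else if i = j then 1 else 0

lemma upL_tri (g : ltQ (univ : Finset (Fin n)) → F2) : (upL g).BlockTriangular id := by
  intro i j hij
  have h1 : ¬ i < j := not_lt.2 (le_of_lt hij)
  have h2 : i ≠ j := ne_of_gt hij
  simp [upL, h1, h2]

lemma upL_det (g : ltQ (univ : Finset (Fin n)) → F2) : IsUnit (upL g).det := by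
  rw [Matrix.det_of_isUpperTriangular (upL_tri g)]
  simp [upL]

lemma upL_inj : Function.Injective (upL (n := n)) := by
  intro g g' h
  funext ⟨⟨i, j⟩, hp⟩
  have hij : i < j := by simpa [ltQ] using hp
  have := congrFun (congrFun h i) j
  simpa [upL, hij] using this

/-- the staircase matrix. -/
def St (n : ℕ) : Matrix (Fin n) (Fin n) F2 := fun u v => if v ≤ u then 1 else 0

lemma St_tri : (St n).BlockTriangular OrderDual.toDual := by
  intro i j hij
  have : ¬ j ≤ i := not_le.2 hij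
  simp [St, this]

lemma St_det : IsUnit (St n).det := by
  rw [Matrix.det_of_isLowerTriangular _ St_tri]
  simp [St]

/-- the second family of vectors. -/
noncomputable def lowY (g : ltQ (univ : Finset (Fin n)) → F2) : Matrix (Fin n) (Fin n) F2 :=
  (upL g)ᵀ⁻¹ * St n

lemma upLT_det (g : ltQ (univ : Finset (Fin n)) → F2) : IsUnit (upL g)ᵀ.det := by
  rw [Matrix.det_transpose]; exact upL_det g

lemma lowY_tri (g : ltQ (univ : Finset (Fin n)) → F2) :
    (lowY g).BlockTriangular OrderDual.toDual := by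
  haveI := Matrix.invertibleOfIsUnitDet _ (upLT_det g)
  exact (Matrix.blockTriangular_inv_of_blockTriangular (upL_tri g).transpose).mul St_tri

lemma lowY_det (g : ltQ (univ : Finset (Fin n)) → F2) : IsUnit (lowY g).det := by
  rw [lowY, Matrix.det_mul]
  exact (Matrix.isUnit_nonsing_inv_det _ (upLT_det g)).mul St_det

lemma upL_mul_lowY (g : ltQ (univ : Finset (Fin n)) → F2) : (upL g)ᵀ * lowY g = St n := by
  rw [lowY, ← Matrix.mul_assoc, Matrix.mul_nonsing_inv _ (upLT_det g), Matrix.one_mul]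

lemma lowY_inj : Function.Injective (lowY (n := n)) := by
  intro g g' h
  apply upL_inj
  apply Matrix.transpose_injective
  have h1 := upL_mul_lowY g
  have h2 := upL_mul_lowY g'
  rw [← h, ← h1] at h2
  have h3 := congrArg (· * (lowY g)⁻¹) h2
  simp only [Matrix.mul_assoc, Matrix.mul_nonsing_inv _ (lowY_det g), Matrix.mul_one] at h3
  exact h3.symm

lemma Inv_dj_tour (L Y : Matrix (Fin n) (Fin n) F2) (h : Lᵀ * Y = St n) :
    Inv (dj (tour (Lᵀ * L)) (tour (Yᵀ * Y))) n := by
  refine ⟨fun i => Sum.elim (L i) (Y i), Sum.elim (fun u => 2 * u.val + 1) (fun v => 2 * v.val), ?_⟩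
  have e : ∀ a b, ∑ i, L i a * Y i b = St n a b := by
    intro a b
    rw [← h]
    simp [Matrix.mul_apply]
  rintro (a | a) (b | b) hab
  · have hne : a ≠ b := fun h => hab (by rw [h])
    have : gram (fun i => Sum.elim (L i) (Y i)) (Sum.inl a) (Sum.inl b) = (Lᵀ * L) a b := by
      simp [gram, Matrix.mul_apply]
    rw [this]
    simp only [dj, tour, ne_eq, hne, not_false_eq_true, true_and, Sum.elim_inl]
    intro h1
    have : a < b := by tauto
    have : a.val < b.val := this
    omega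
  · have : gram (fun i => Sum.elim (L i) (Y i)) (Sum.inl a) (Sum.inr b) = St n a b := by
      simp [gram, e]
    rw [this]
    simp only [dj, St, true_iff, Sum.elim_inl, Sum.elim_inr]
    intro h1
    have : ¬ b ≤ a := by
      intro h2
      rw [if_pos h2] at h1
      exact absurd h1 (by decide)
    have : a.val < b.val := not_le.1 this
    omega
  · have : gram (fun i => Sum.elim (L i) (Y i)) (Sum.inr a) (Sum.inl b) = St n b a := by
      rw [← e]
      simp [gram, mul_comm]
    rw [this]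
    simp only [dj, St, false_iff, Sum.elim_inl, Sum.elim_inr]
    intro h1
    have : a ≤ b := by
      by_contra h2
      exact h1 (if_neg h2)
    have : a.val ≤ b.val := this
    omega
  · have hne : a ≠ b := fun h => hab (by rw [h])
    have : gram (fun i => Sum.elim (L i) (Y i)) (Sum.inr a) (Sum.inr b) = (Yᵀ * Y) a b := by
      simp [gram, Matrix.mul_apply]
    rw [this]
    simp only [dj, tour, ne_eq, hne, not_false_eq_true, true_and, Sum.elim_inr]
    intro h1
    have : a < b := by tauto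
    have : a.val < b.val := this
    omega

lemma lt_tmr {A : Matrix (Fin n) (Fin n) F2} (hA : A.IsSymm) {r : ℕ} (h : A ∉ Bad n r) :
    r < tmr (tour A) := by
  by_contra hc
  obtain ⟨M, h1, h2, h3⟩ := tmr_spec (tour_isT hA)
  apply h
  simp only [Bad, mem_filter, mem_univ, true_and]
  exact ⟨hA, M, h1, by omega, h3⟩

lemma exists_of_count (n r : ℕ)
    (h : 2 * (Bad n r).card < 2 ^ (ltQ (univ : Finset (Fin n))).card) :
    ∃ T₁ T₂ : Fin n → Fin n → Prop, IsT T₁ ∧ IsT T₂ ∧ Inv (dj T₁ T₂) n ∧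
      r < tmr T₁ ∧ r < tmr T₂ := by
  classical
  have : ∃ g : ltQ (univ : Finset (Fin n)) → F2,
      (upL g)ᵀ * upL g ∉ Bad n r ∧ (lowY g)ᵀ * lowY g ∉ Bad n r := by
    by_contra hc
    push Not at hc
    have h1 : (univ.filter fun g : ltQ (univ : Finset (Fin n)) → F2 =>
        (upL g)ᵀ * upL g ∈ Bad n r).card ≤ (Bad n r).card := by
      refine Finset.card_le_card_of_injOn (fun g => (upL g)ᵀ * upL g) (fun g hg => ?_) ?_
      · exact (Finset.mem_filter.1 hg).2
      · intro g _ g' _ hg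
        exact upL_inj (tri_inj Function.injective_id (upL_tri g) (upL_tri g') (upL_det g)
          (upL_det g') hg)
    have h2 : (univ.filter fun g : ltQ (univ : Finset (Fin n)) → F2 =>
        ¬ (upL g)ᵀ * upL g ∈ Bad n r).card ≤ (Bad n r).card := by
      refine Finset.card_le_card_of_injOn (fun g => (lowY g)ᵀ * lowY g) (fun g hg => ?_) ?_
      · exact hc g (Finset.mem_filter.1 hg).2
      · intro g _ g' _ hg
        exact lowY_inj (tri_inj OrderDual.toDual.injective (lowY_tri g) (lowY_tri g') (lowY_det g)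
          (lowY_det g') hg)
    have h3 := Finset.card_filter_add_card_filter_not (s := univ)
      (fun g : ltQ (univ : Finset (Fin n)) → F2 => (upL g)ᵀ * upL g ∈ Bad n r)
    rw [Finset.card_univ, Fintype.card_fun, ZMod.card, Fintype.card_coe] at h3
    omega
  obtain ⟨g, h1, h2⟩ := this
  exact ⟨_, _, tour_isT (Matrix.isSymm_transpose_mul_self _),
    tour_isT (Matrix.isSymm_transpose_mul_self _), Inv_dj_tour _ _ (upL_mul_lowY g),
    lt_tmr (Matrix.isSymm_transpose_mul_self _) h1, lt_tmr (Matrix.isSymm_transpose_mul_self _) h2⟩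

lemma count_ok (n : ℕ) (hn : n = 128) :
    2 * (Bad n 76).card < 2 ^ (ltQ (univ : Finset (Fin n))).card := by
  have h1 := card_Bad (n := n) 76
  have h2 := card_LowRank (n := n) 76 6840 (by omega) (by rw [hn]; norm_num)
  have h3 := card_lt_univ (n := n)
  have h4 : 8128 ≤ (ltQ (univ : Finset (Fin n))).card := by
    have : n * n = 16384 := by rw [hn]
    omega
  have h5 : n ^ n = 2 ^ 896 := by
    rw [hn, show (128 : ℕ) = 2 ^ 7 by norm_num, ← pow_mul]
    norm_num
  have h6 : (2 : ℕ) ^ n = 2 ^ 128 := by rw [hn]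
  rw [h5, h6] at h1
  rw [h6] at h2
  calc 2 * (Bad n 76).card ≤ 2 * (2 ^ 896 * (2 ^ 128 * (2 ^ 128 * (2 ^ 128 * 2 ^ 6840)))) :=
        Nat.mul_le_mul_left _ (h1.trans (Nat.mul_le_mul_left _ (Nat.mul_le_mul_left _ h2)))
    _ = 2 ^ 8121 := by
        rw [← pow_add, ← pow_add, ← pow_add, ← pow_add, ← pow_succ']
    _ < 2 ^ 8128 := Nat.pow_lt_pow_right (by norm_num) (by norm_num)
    _ ≤ _ := Nat.pow_le_pow_right (by norm_num) h4

theorem main_tmr : ∃ (n : ℕ) (T₁ T₂ : Fin n → Fin n → Prop), IsT T₁ ∧ IsT T₂ ∧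
    ∃ k, Inv (dj T₁ T₂) k ∧ k + 26 ≤ tmr T₁ + tmr T₂ ∧ 1 ≤ tmr T₁ ∧ 1 ≤ tmr T₂ := by
  obtain ⟨T₁, T₂, h1, h2, h3, h4, h5⟩ := exists_of_count 128 76 (count_ok 128 rfl)
  exact ⟨128, T₁, T₂, h1, h2, 128, h3, by omega, by omega, by omega⟩

theorem main_even : ∃ (n : ℕ) (T₁ T₂ : Fin n → Fin n → Prop), IsT T₁ ∧ IsT T₂ ∧
    Even (inv T₁) ∧ Even (inv T₂) ∧ ∃ k, Inv (dj T₁ T₂) k ∧ k < inv T₁ + inv T₂ := by
  obtain ⟨n, T₁, T₂, h1, h2, k, h3, h4, -, -⟩ := main_tmr
  obtain ⟨x, x1, x2⟩ := exists_even h1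
  obtain ⟨y, y1, y2⟩ := exists_even h2
  have a1 := tmr_le_inv h1
  have a2 := tmr_le_inv h2
  exact ⟨n, _, _, flip_isT h1 x, flip_isT h2 y, x1, y1, k + 2, Inv_dj_flip x y h3, by omega⟩

end Pool.Agent.H535Z.Dijoin
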